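import Mathlib

set_option autoImplicit false

/-!
# Limit chain points of a semi-flow and of a map: definitions (MP_f2fc76_an)
-/

namespace Pool.Agent.W_MP_f2fc76_an

open Set Filter Topology

/-- A continuous-time system on `X`: maps `F^t : X → X` for `t ≥ 0` (`toFun t`; the values for
`t < 0` play no role) with `F^0 = id`, `F^t ∘ F^s = F^(s+t)`, every `F^t` continuous, and every
orbit `t ↦ F^t x` continuous on `[0, ∞)`. Joint continuity in `(t, x)` is NOT assumed. -/
structure SemiFlow (X : Type*) [MetricSpace X] where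
  /-- the time-`t` map -/
  toFun : ℝ → X → X
  map_zero : ∀ x, toFun 0 x = x
  map_add : ∀ s t : ℝ, 0 ≤ s → 0 ≤ t → ∀ x, toFun (s + t) x = toFun t (toFun s x)
  continuous_map : ∀ t : ℝ, 0 ≤ t → Continuous (toFun t)
  continuous_orbit : ∀ x, ContinuousOn (fun t => toFun t x) (Ici 0)

/-- `z` is piecewise continuous on `[0, τ]`: there are finitely many break points
`0 = s 0 < s 1 < ⋯ < s n = τ` such that on each open interval `(s i, s (i+1))` the map `z`
agrees with a map which is continuous on the closed interval `[s i, s (i+1)]`. -/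
def PiecewiseContinuous {X : Type*} [TopologicalSpace X] (z : ℝ → X) (τ : ℝ) : Prop :=
  ∃ (n : ℕ) (s : ℕ → ℝ), s 0 = 0 ∧ s n = τ ∧ (∀ i < n, s i < s (i + 1)) ∧
    ∀ i < n, ∃ g : ℝ → X, ContinuousOn g (Icc (s i) (s (i + 1))) ∧
      EqOn z g (Ioo (s i) (s (i + 1)))

variable {X : Type*} [MetricSpace X]

/-- `z : [0, τ] → X` is an `ε`-chain of the semi-flow `F` from `x` to `y`, of duration `τ ≥ 1`,
contained in `K`. -/
structure IsFlowChain (F : SemiFlow X) (ε τ : ℝ) (K : Set X) (x y : X) (z : ℝ → X) : Prop where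
  one_le : 1 ≤ τ
  piecewise : PiecewiseContinuous z τ
  start : z 0 = x
  finish : z τ = y
  mem : ∀ t ∈ Icc 0 τ, z t ∈ K
  jump : ∀ t₀ t₁ : ℝ, 0 ≤ t₀ → t₀ < t₁ → t₁ ≤ τ → t₁ - t₀ ≤ 1 →
    dist (F.toFun (t₁ - t₀) (z t₀)) (z t₁) < ε

/-- `z 0, …, z N` is an `ε`-chain of the map `g` from `x` to `y`, of duration `N ≥ 1`,
contained in `K`. -/
structure IsMapChain (g : X → X) (ε : ℝ) (N : ℕ) (K : Set X) (x y : X) (z : ℕ → X) : Prop where
  one_le : 1 ≤ N
  start : z 0 = x
  finish : z N = y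
  mem : ∀ i ≤ N, z i ∈ K
  jump : ∀ i < N, dist (g (z i)) (z (i + 1)) < ε

/-- `y` is a limit chain point of `x` for the semi-flow `F`. -/
def IsLimitChainPointFlow (F : SemiFlow X) (x y : X) : Prop :=
  ∃ K : Set X, IsCompact K ∧ ∃ τ : ℝ → ℝ,
    (∀ ε > 0, ∃ z : ℝ → X, IsFlowChain F ε (τ ε) K x y z) ∧ Tendsto τ (𝓝[>] 0) atTop

/-- `y` is a limit chain point of `x` for the discrete-time system given by the map `g`. -/
def IsLimitChainPointMap (g : X → X) (x y : X) : Prop :=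
  ∃ K : Set X, IsCompact K ∧ ∃ N : ℝ → ℕ,
    (∀ ε > 0, ∃ z : ℕ → X, IsMapChain g ε (N ε) K x y z) ∧ Tendsto N (𝓝[>] 0) atTop

end Pool.Agent.W_MP_f2fc76_an
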