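import Pool.Agent.W_MP_f2fc76_an.Defs

set_option autoImplicit false

namespace Pool.Agent.W_MP_f2fc76_an

open Set Filter Topology

variable {X : Type*} [MetricSpace X]

/-! ### Joint continuity at positive times -/

lemma continuous_orbit_max (F : SemiFlow X) (x : X) :
    Continuous (fun t : ℝ => F.toFun (max t 0) x) :=
  (F.continuous_orbit x).comp_continuous (by fun_prop) (fun _ => mem_Ici.2 (le_max_right _ _))

/-- The sets used in the Baire argument. -/
def bset (F : SemiFlow X) (x : X) (k n : ℕ) : Set ℝ :=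
  {t : ℝ | ∀ y, dist y x < 1 / ((n : ℝ) + 1) →
    dist (F.toFun (max t 0) y) (F.toFun (max t 0) x) ≤ 1 / ((k : ℝ) + 1)}

lemma isClosed_bset (F : SemiFlow X) (x : X) (k n : ℕ) : IsClosed (bset F x k n) := by
  have h : bset F x k n = ⋂ y : X, ⋂ _ : dist y x < 1 / ((n : ℝ) + 1),
      {t : ℝ | dist (F.toFun (max t 0) y) (F.toFun (max t 0) x) ≤ 1 / ((k : ℝ) + 1)} := by
    ext t
    simp [bset]
  rw [h]
  refine isClosed_iInter fun y => isClosed_iInter fun _ => ?_
  exact isClosed_le ((continuous_orbit_max F y).dist (continuous_orbit_max F x)) continuous_const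

lemma iUnion_bset (F : SemiFlow X) (x : X) (k : ℕ) : ⋃ n, bset F x k n = univ := by
  refine eq_univ_of_forall fun t => ?_
  have hc : ContinuousAt (F.toFun (max t 0)) x :=
    (F.continuous_map _ (le_max_right _ _)).continuousAt
  have hk : (0 : ℝ) < 1 / ((k : ℝ) + 1) := by positivity
  obtain ⟨δ, hδ, h⟩ := Metric.continuousAt_iff.1 hc _ hk
  obtain ⟨n, hn⟩ := exists_nat_one_div_lt hδ
  refine mem_iUnion.2 ⟨n, fun y hy => ?_⟩
  exact (h (hy.trans hn)).le

lemma exists_good_time (F : SemiFlow X) (x : X) {s : ℝ} (hs : 0 < s) :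
    ∃ t ∈ Ioo 0 s, ContinuousAt (fun q : ℝ × X => F.toFun (max q.1 0) q.2) (t, x) := by
  have hd : Dense (⋂ k : ℕ, ⋃ n : ℕ, interior (bset F x k n)) := by
    refine dense_iInter_of_isOpen (fun k => isOpen_iUnion fun n => isOpen_interior) (fun k => ?_)
    exact dense_iUnion_interior_of_closed (isClosed_bset F x k) (iUnion_bset F x k)
  obtain ⟨t, ht, htD⟩ := hd.inter_open_nonempty (Ioo 0 s) isOpen_Ioo (nonempty_Ioo.2 hs)
  refine ⟨t, ht, ?_⟩
  rw [Metric.continuousAt_iff']
  intro ε hε
  obtain ⟨k, hk⟩ := exists_nat_one_div_lt (half_pos hε)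
  have h1 := mem_iInter.1 htD k
  obtain ⟨n, hn⟩ := mem_iUnion.1 h1
  have h2 : ∀ᶠ q : ℝ × X in 𝓝 (t, x), q.1 ∈ bset F x k n := by
    have : ∀ᶠ r in 𝓝 t, r ∈ bset F x k n := mem_interior_iff_mem_nhds.1 hn
    exact (continuous_fst.tendsto (t, x)).eventually this
  have h3 : ∀ᶠ q : ℝ × X in 𝓝 (t, x), dist q.2 x < 1 / ((n : ℝ) + 1) := by
    have hpos : (0 : ℝ) < 1 / ((n : ℝ) + 1) := by positivity
    have : ∀ᶠ y in 𝓝 x, dist y x < 1 / ((n : ℝ) + 1) := Metric.ball_mem_nhds x hpos
    exact (continuous_snd.tendsto (t, x)).eventually this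
  have h4 : ∀ᶠ q : ℝ × X in 𝓝 (t, x),
      dist (F.toFun (max q.1 0) x) (F.toFun (max t 0) x) < ε / 2 := by
    have h5 : ContinuousAt (fun q : ℝ × X => F.toFun (max q.1 0) x) (t, x) :=
      ((continuous_orbit_max F x).comp continuous_fst).continuousAt
    exact (Metric.continuousAt_iff'.1 h5) _ (half_pos hε)
  filter_upwards [h2, h3, h4] with q hq2 hq3 hq4
  calc dist (F.toFun (max q.1 0) q.2) (F.toFun (max t 0) x)
      ≤ dist (F.toFun (max q.1 0) q.2) (F.toFun (max q.1 0) x)
        + dist (F.toFun (max q.1 0) x) (F.toFun (max t 0) x) := dist_triangle _ _ _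
    _ < ε / 2 + ε / 2 := by
        have := hq2 q.2 hq3
        linarith
    _ = ε := by ring

/-- A separately continuous semi-flow is jointly continuous at positive times. -/
lemma continuousAt_uncurry (F : SemiFlow X) {s : ℝ} (hs : 0 < s) (x : X) :
    ContinuousAt (fun q : ℝ × X => F.toFun q.1 q.2) (s, x) := by
  obtain ⟨t, ht, hc⟩ := exists_good_time F x hs
  have h1 : ContinuousAt (fun q : ℝ × X => (q.1 - (s - t), q.2)) (s, x) := by fun_prop
  have h2 : ContinuousAt
      (fun q : ℝ × X => F.toFun (max (q.1 - (s - t)) 0) q.2) (s, x) := by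
    have h3 : ((s, x).1 - (s - t), (s, x).2) = (t, x) := by
      simp
    have := ContinuousAt.comp (x := (s, x)) (f := fun q : ℝ × X => (q.1 - (s - t), q.2))
      (g := fun q : ℝ × X => F.toFun (max q.1 0) q.2) (by rw [h3]; exact hc) h1
    exact this
  have hst : 0 ≤ s - t := by linarith [ht.2]
  have h4 : ContinuousAt
      (fun q : ℝ × X => F.toFun (s - t) (F.toFun (max (q.1 - (s - t)) 0) q.2)) (s, x) :=
    (F.continuous_map _ hst).continuousAt.comp h2
  refine h4.congr ?_
  have h5 : ∀ᶠ q : ℝ × X in 𝓝 (s, x), s - t < q.1 := by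
    have : ∀ᶠ r in 𝓝 s, s - t < r := Ioi_mem_nhds (by linarith [ht.1])
    exact (continuous_fst.tendsto (s, x)).eventually this
  filter_upwards [h5] with q hq
  have h6 : max (q.1 - (s - t)) 0 = q.1 - (s - t) := max_eq_left (by linarith)
  rw [h6, ← F.map_add _ _ (by linarith) hst]
  congr 1
  ring

/-- Uniform continuity on compact sets, at positive times. -/
lemma uniform_est (F : SemiFlow X) {K : Set X} (hK : IsCompact K) {a b : ℝ} (ha : 0 < a)
    {ε : ℝ} (hε : 0 < ε) :
    ∃ δ > 0, ∀ s ∈ Icc a b, ∀ x ∈ K, ∀ (s' : ℝ) (y : X), dist s s' < δ → dist x y < δ →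
      dist (F.toFun s x) (F.toFun s' y) < ε := by
  have hc : IsCompact (Icc a b ×ˢ K) := isCompact_Icc.prod hK
  have h := hc.uniformContinuousAt_of_continuousAt (fun q : ℝ × X => F.toFun q.1 q.2)
    (fun q hq => continuousAt_uncurry F (lt_of_lt_of_le ha hq.1.1) q.2)
    (Metric.dist_mem_uniformity hε)
  obtain ⟨δ, hδ, h2⟩ := Metric.mem_uniformity_dist.1 h
  refine ⟨δ, hδ, fun s hs x hx s' y h3 h4 => ?_⟩
  have h5 : dist (s, x) (s', y) < δ := by
    rw [Prod.dist_eq]
    exact max_lt h3 h4
  exact h2 h5 ⟨hs, hx⟩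

/-! ### Reformulation of the limit chain relations -/

lemma flow_iff (F : SemiFlow X) (x y : X) :
    IsLimitChainPointFlow F x y ↔ ∃ K : Set X, IsCompact K ∧
      ∀ ε > 0, ∀ M : ℝ, ∃ τ ≥ M, ∃ z : ℝ → X, IsFlowChain F ε τ K x y z := by
  constructor
  · rintro ⟨K, hK, τ, h1, h2⟩
    refine ⟨K, hK, fun ε hε M => ?_⟩
    have h3 : ∀ᶠ e in 𝓝[>] (0 : ℝ), M ≤ τ e := h2.eventually_ge_atTop M
    have h4 : ∀ᶠ e in 𝓝[>] (0 : ℝ), e ∈ Ioo 0 ε := Ioo_mem_nhdsGT hε
    obtain ⟨e, he3, he4⟩ := (h3.and h4).exists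
    obtain ⟨z, hz⟩ := h1 e he4.1
    exact ⟨τ e, he3, z, ⟨hz.one_le, hz.piecewise, hz.start, hz.finish, hz.mem,
      fun t₀ t₁ a b c d => (hz.jump t₀ t₁ a b c d).trans he4.2⟩⟩
  · rintro ⟨K, hK, h⟩
    choose τ hτ z hz using fun ε : {ε : ℝ // 0 < ε} => h ε.1 ε.2 (1 / ε.1)
    refine ⟨K, hK, fun ε => if hε : 0 < ε then τ ⟨ε, hε⟩ else 0, fun ε hε => ?_, ?_⟩
    · have hε' : 0 < ε := hε
      refine ⟨z ⟨ε, hε'⟩, ?_⟩
      simp only [hε', dif_pos]
      exact hz ⟨ε, hε'⟩
    · have h1 : Tendsto (fun ε : ℝ => 1 / ε) (𝓝[>] 0) atTop := by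
        simp only [one_div]
        exact tendsto_inv_nhdsGT_zero (𝕜 := ℝ)
      refine tendsto_atTop_mono' _ ?_ h1
      filter_upwards [self_mem_nhdsWithin] with ε hε
      have hε' : 0 < ε := hε
      simp only [hε', dif_pos]
      exact hτ ⟨ε, hε'⟩

lemma map_iff (g : X → X) (x y : X) :
    IsLimitChainPointMap g x y ↔ ∃ K : Set X, IsCompact K ∧
      ∀ ε > 0, ∀ M : ℕ, ∃ N ≥ M, ∃ z : ℕ → X, IsMapChain g ε N K x y z := by
  constructor
  · rintro ⟨K, hK, N, h1, h2⟩
    refine ⟨K, hK, fun ε hε M => ?_⟩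
    have h3 : ∀ᶠ e in 𝓝[>] (0 : ℝ), M ≤ N e := h2.eventually_ge_atTop M
    have h4 : ∀ᶠ e in 𝓝[>] (0 : ℝ), e ∈ Ioo 0 ε := Ioo_mem_nhdsGT hε
    obtain ⟨e, he3, he4⟩ := (h3.and h4).exists
    obtain ⟨z, hz⟩ := h1 e he4.1
    exact ⟨N e, he3, z, ⟨hz.one_le, hz.start, hz.finish, hz.mem,
      fun i hi => (hz.jump i hi).trans he4.2⟩⟩
  · rintro ⟨K, hK, h⟩
    choose N hN z hz using fun ε : {ε : ℝ // 0 < ε} => h ε.1 ε.2 ⌊1 / ε.1⌋₊
    refine ⟨K, hK, fun ε => if hε : 0 < ε then N ⟨ε, hε⟩ else 0, fun ε hε => ?_, ?_⟩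
    · have hε' : 0 < ε := hε
      refine ⟨z ⟨ε, hε'⟩, ?_⟩
      simp only [hε', dif_pos]
      exact hz ⟨ε, hε'⟩
    · have h0 : Tendsto (fun ε : ℝ => 1 / ε) (𝓝[>] 0) atTop := by
        simp only [one_div]
        exact tendsto_inv_nhdsGT_zero (𝕜 := ℝ)
      have h1 : Tendsto (fun ε : ℝ => ⌊1 / ε⌋₊) (𝓝[>] 0) atTop :=
        tendsto_nat_floor_atTop.comp h0
      refine tendsto_atTop_mono' _ ?_ h1
      filter_upwards [self_mem_nhdsWithin] with ε hε
      have hε' : 0 < ε := hε
      simp only [hε', dif_pos]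
      exact hN ⟨ε, hε'⟩

/-! ### From the flow to the time-`T` map -/

lemma flow_to_map (F : SemiFlow X) {T : ℝ} (hT : 0 < T) {K : Set X} (hK : IsCompact K)
    {x y : X} (h : ∀ ε > 0, ∀ M : ℝ, ∃ τ ≥ M, ∃ z : ℝ → X, IsFlowChain F ε τ K x y z) :
    ∀ ε > 0, ∀ M : ℕ, ∃ N ≥ M, ∃ z : ℕ → X, IsMapChain (F.toFun T) ε N K x y z := by
  intro ε hε M
  obtain ⟨m, hm⟩ := exists_nat_ge (2 * T + 1)
  have hm0 : (0 : ℝ) < m := by linarith
  have hm1 : 1 ≤ m := by
    have : (0 : ℝ) < m := hm0
    exact_mod_cast this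
  set η : ℝ := ε / (2 * (m + 1)) with hη
  have hηpos : 0 < η := by positivity
  obtain ⟨δ₁, hδ₁, hU⟩ := uniform_est F hK (a := T / m) (b := 2 * T) (by positivity) hηpos
  obtain ⟨δ₂, hδ₂, hV⟩ := uniform_est F hK (a := T) (b := T) hT (half_pos hε)
  obtain ⟨k₀, hk₀⟩ := exists_nat_gt (T / δ₂)
  obtain ⟨τ, hτ, z, hz⟩ := h (min δ₁ η) (lt_min hδ₁ hηpos) (T * (M + k₀ + 1))
  set k : ℕ := ⌊τ / T⌋₊ with hk
  have hτ0 : 0 ≤ τ / T := div_nonneg (zero_le_one.trans hz.one_le) hT.le
  have hkle : (k : ℝ) ≤ τ / T := Nat.floor_le hτ0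
  have hklt : τ / T < k + 1 := Nat.lt_floor_add_one _
  have hkM : M + k₀ + 1 ≤ k := by
    refine Nat.le_floor ?_
    rw [le_div_iff₀ hT]
    push_cast
    linarith
  have hkpos : 0 < k := by omega
  have hkpos' : (0 : ℝ) < k := by exact_mod_cast hkpos
  set T' : ℝ := τ / k with hT'
  have hkT' : k * T' = τ := by rw [hT']; field_simp
  have hTT' : T ≤ T' := by
    rw [hT', le_div_iff₀ hkpos']
    rw [le_div_iff₀ hT] at hkle
    linarith
  have hT'T : T' < T + T / k := by
    have h1 : τ < (k + 1) * T := by rwa [div_lt_iff₀ hT] at hklt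
    rw [hT', div_lt_iff₀ hkpos']
    have h2 : (T + T / k) * k = (k + 1) * T := by field_simp
    linarith
  have hTk : T / k < δ₂ := by
    have h1 : (k₀ : ℝ) ≤ k := by exact_mod_cast (by omega : k₀ ≤ k)
    rw [div_lt_iff₀ hkpos']
    rw [div_lt_iff₀ hδ₂] at hk₀
    nlinarith
  have hTk1 : T / k ≤ T := by
    apply div_le_self hT.le
    exact_mod_cast hkpos
  have hT'2 : T' ≤ 2 * T := by linarith
  have hT'pos : 0 < T' := by linarith
  refine ⟨k, by omega, fun i => z (i * T'), ⟨hkpos, ?_, ?_, ?_, ?_⟩⟩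
  · simp [hz.start]
  · simp only [hkT']
    exact hz.finish
  · intro i hi
    refine hz.mem _ ⟨by positivity, ?_⟩
    rw [← hkT']
    have : (i : ℝ) ≤ k := by exact_mod_cast hi
    exact mul_le_mul_of_nonneg_right this hT'pos.le
  · intro i hi
    have hi1 : ((i : ℝ) + 1) * T' ≤ τ := by
      rw [← hkT']
      have : ((i : ℝ) + 1) ≤ k := by exact_mod_cast hi
      exact mul_le_mul_of_nonneg_right this hT'pos.le
    set p : X := z (i * T') with hp
    have hpK : p ∈ K := hz.mem _ ⟨by positivity, by nlinarith⟩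
    -- first: change `T` into `T'`
    have h1 : dist (F.toFun T p) (F.toFun T' p) < ε / 2 := by
      refine hV T ⟨le_rfl, le_rfl⟩ p hpK T' p ?_ (by simpa using hδ₂)
      rw [Real.dist_eq, abs_sub_comm, abs_of_nonneg (by linarith)]
      linarith
    -- second: follow the chain in `m` steps
    set s : ℝ := T' / m with hs
    have hms : m * s = T' := by rw [hs]; field_simp
    have hs1 : s ≤ 1 := by
      rw [hs, div_le_iff₀ hm0]
      linarith
    have hs0 : T / m ≤ s := by
      rw [hs]
      exact div_le_div_of_nonneg_right hTT' hm0.le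
    have hspos : 0 < s := lt_of_lt_of_le (by positivity) hs0
    set P : ℕ → X := fun j => F.toFun ((m - j) * s) (z (i * T' + j * s)) with hP
    have hP0 : P 0 = F.toFun T' p := by
      simp [hP, hms, hp]
    have hPm : P m = z (((i + 1 : ℕ) : ℝ) * T') := by
      simp only [hP, sub_self, zero_mul, F.map_zero]
      congr 1
      push_cast
      linarith
    have hstep : ∀ {j : ℕ}, 0 ≤ j → j < m → dist (P j) (P (j + 1)) ≤ η := by
      intro j _ hj
      have hj' : ((j : ℝ) + 1) ≤ m := by exact_mod_cast hj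
      have hj0 : (0 : ℝ) ≤ j := Nat.cast_nonneg j
      have hjs : ((j : ℝ) + 1) * s ≤ T' := by
        rw [← hms]
        exact mul_le_mul_of_nonneg_right hj' hspos.le
      have hjs0 : 0 ≤ (j : ℝ) * s := by positivity
      have hiT : 0 ≤ (i : ℝ) * T' := by positivity
      have hq : dist (F.toFun s (z (i * T' + j * s))) (z (i * T' + ((j : ℝ) + 1) * s))
          < min δ₁ η := by
        have := hz.jump (i * T' + j * s) (i * T' + ((j : ℝ) + 1) * s) (by positivity)
          (by linarith) (by linarith) (by linarith)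
        have h8 : i * T' + ((j : ℝ) + 1) * s - (i * T' + j * s) = s := by ring
        rwa [h8] at this
      have hqK : z (i * T' + ((j : ℝ) + 1) * s) ∈ K :=
        hz.mem _ ⟨by positivity, by linarith⟩
      have h9 : P j = F.toFun ((m - (j + 1)) * s) (F.toFun s (z (i * T' + j * s))) := by
        simp only [hP]
        rw [← F.map_add s _ hspos.le (by
          apply mul_nonneg _ hspos.le
          linarith)]
        congr 1
        ring
      have h10 : P (j + 1) = F.toFun ((m - (j + 1)) * s) (z (i * T' + ((j : ℝ) + 1) * s)) := by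
        simp only [hP]
        push_cast
        rfl
      rw [h9, h10]
      rcases eq_or_lt_of_le hj' with hjm | hjm
      · have h11 : ((m : ℝ) - (j + 1)) * s = 0 := by rw [hjm]; ring
        rw [h11, F.map_zero, F.map_zero]
        exact (hq.trans_le (min_le_right _ _)).le
      · have hjm' : j + 1 < m := by exact_mod_cast hjm
        have hjm2 : (j : ℝ) + 1 + 1 ≤ m := by exact_mod_cast hjm'
        have h12 : ((m : ℝ) - (j + 1)) * s ∈ Icc (T / m) (2 * T) := by
          constructor
          · calc T / m ≤ s := hs0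
              _ = 1 * s := by ring
              _ ≤ ((m : ℝ) - (j + 1)) * s := by
                apply mul_le_mul_of_nonneg_right _ hspos.le
                linarith
          · calc ((m : ℝ) - (j + 1)) * s ≤ m * s := by
                  apply mul_le_mul_of_nonneg_right _ hspos.le
                  linarith
              _ = T' := hms
              _ ≤ 2 * T := hT'2
        rw [dist_comm]
        refine (hU _ h12 _ hqK _ _ (by simpa using hδ₁) ?_).le
        rw [dist_comm]
        exact hq.trans_le (min_le_left _ _)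
    have h2 : dist (P 0) (P m) ≤ ∑ i ∈ Finset.Ico 0 m, η :=
      dist_le_Ico_sum_of_dist_le (Nat.zero_le m) (d := fun _ => η) hstep
    have h3 : dist (P 0) (P m) < ε / 2 := by
      refine lt_of_le_of_lt h2 ?_
      simp only [Finset.sum_const, Nat.card_Ico, nsmul_eq_mul, tsub_zero]
      rw [hη]
      rw [mul_div_assoc', div_lt_div_iff₀ (by positivity) (by norm_num)]
      nlinarith
    calc dist (F.toFun T p) (z (((i + 1 : ℕ) : ℝ) * T'))
        ≤ dist (F.toFun T p) (F.toFun T' p) + dist (F.toFun T' p) (z (((i + 1 : ℕ) : ℝ) * T')) :=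
          dist_triangle _ _ _
      _ < ε / 2 + ε / 2 := by
          rw [← hP0, ← hPm]
          rw [← hP0] at h1
          linarith
      _ = ε := by ring

/-! ### From the time-`T` map to the flow -/

/-- The index of the point of the discrete chain which is followed at time `t`. -/
noncomputable def idx (T t : ℝ) : ℕ := ⌊t / T - 1 / 2⌋₊

lemma idx_spec {T t : ℝ} (hT : 0 < T) (ht : 0 ≤ t) :
    0 ≤ t - idx T t * T ∧ t - idx T t * T < 3 * T / 2 ∧
      (idx T t ≠ 0 → T / 2 ≤ t - idx T t * T) := by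
  have h1 : t / T - 1 / 2 < idx T t + 1 := Nat.lt_floor_add_one _
  have h1' : t < (idx T t + 3 / 2) * T := by
    rw [← div_lt_iff₀ hT]
    linarith
  have h2 : idx T t ≠ 0 → T / 2 ≤ t - idx T t * T := by
    intro h
    have h3 : (idx T t : ℝ) ≤ t / T - 1 / 2 := by
      refine Nat.floor_le ?_
      by_contra hneg
      push Not at hneg
      exact h (Nat.floor_of_nonpos hneg.le)
    have h4 : (idx T t + 1 / 2) * T ≤ t := by
      rw [← le_div_iff₀ hT]
      linarith
    linarith
  refine ⟨?_, by linarith, h2⟩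
  by_cases h : idx T t = 0
  · simp [h, ht]
  · have := h2 h
    linarith

lemma map_to_flow (F : SemiFlow X) {T : ℝ} (hT : 0 < T) {K : Set X} (hK : IsCompact K)
    {x y : X}
    (h : ∀ ε > 0, ∀ M : ℕ, ∃ N ≥ M, ∃ z : ℕ → X, IsMapChain (F.toFun T) ε N K x y z) :
    ∃ K' : Set X, IsCompact K' ∧
      ∀ ε > 0, ∀ M : ℝ, ∃ τ ≥ M, ∃ z : ℝ → X, IsFlowChain F ε τ K' x y z := by
  refine ⟨(fun q : ℝ × X => F.toFun q.1 q.2) '' (Icc (T / 2) (3 * T / 2) ×ˢ K) ∪
    (fun t => F.toFun t x) '' Icc 0 (3 * T / 2) ∪ {y}, ?_, ?_⟩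
  · refine (IsCompact.union ?_ ?_).union isCompact_singleton
    · refine (isCompact_Icc.prod hK).image_of_continuousOn ?_
      intro q hq
      exact (continuousAt_uncurry F (lt_of_lt_of_le (half_pos hT) hq.1.1)
        q.2).continuousWithinAt
    · exact isCompact_Icc.image_of_continuousOn
        ((F.continuous_orbit x).mono Icc_subset_Ici_self)
  intro ε hε M
  obtain ⟨J, hJ⟩ := exists_nat_gt (1 / T + 2)
  set η : ℝ := ε / (J + 1) with hη
  have hηpos : 0 < η := by positivity
  obtain ⟨δ₀, hδ₀, hU⟩ := uniform_est F hK (a := T / 2) (b := 1 + T) (half_pos hT) hηpos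
  obtain ⟨N₀, hN₀⟩ := exists_nat_gt (max (M / T) (1 / T))
  obtain ⟨N, hN, z, hz⟩ := h (min δ₀ η) (lt_min hδ₀ hηpos) N₀
  have hNN₀ : (N₀ : ℝ) ≤ N := by exact_mod_cast hN
  have hNM : M ≤ N * T := by
    rw [← div_le_iff₀ hT]
    exact ((le_max_left _ _).trans hN₀.le).trans hNN₀
  have hN1 : 1 ≤ N * T := by
    rw [← div_le_iff₀ hT]
    exact ((le_max_right _ _).trans hN₀.le).trans hNN₀
  have hNpos : 0 < N := hz.one_le
  have hNpos' : (0 : ℝ) < N := by exact_mod_cast hNpos
  have hNT : 0 < N * T := by positivity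
  have hidx_lt : ∀ t, t < N * T → idx T t < N := by
    intro t ht
    unfold idx
    rw [Nat.floor_lt' hNpos.ne']
    have : t / T < N := by rwa [div_lt_iff₀ hT]
    linarith
  set w : ℝ → X := fun t => if t < N * T then F.toFun (t - idx T t * T) (z (idx T t)) else y
    with hw
  have hidx0 : idx T 0 = 0 := by
    unfold idx
    apply Nat.floor_of_nonpos
    norm_num
  -- the key estimate along a fixed final time
  have key : ∀ (t₁ : ℝ) (i₀ i₁ : ℕ), i₀ ≤ i₁ → i₁ ≤ N → (i₁ : ℝ) * T ≤ t₁ →
      (∀ i, i₀ ≤ i → i < i₁ → (t₁ - (i + 1) * T = 0 ∨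
        (T / 2 ≤ t₁ - (i + 1) * T ∧ t₁ - (i + 1) * T ≤ 1 + T))) →
      (i₁ : ℝ) - i₀ < J →
      dist (F.toFun (t₁ - i₀ * T) (z i₀)) (F.toFun (t₁ - i₁ * T) (z i₁)) < ε := by
    intro t₁ i₀ i₁ h01 h1N ht₁ hcond hJlt
    have hstep : ∀ {i : ℕ}, i₀ ≤ i → i < i₁ →
        dist (F.toFun (t₁ - i * T) (z i)) (F.toFun (t₁ - ((i + 1 : ℕ) : ℝ) * T) (z (i + 1)))
          ≤ η := by
      intro i hi0 hi1
      have hiN : i < N := by omega
      have hjump := hz.jump i hiN
      have hmem := hz.mem (i + 1) (by omega)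
      have hi1' : ((i : ℝ) + 1) * T ≤ t₁ := by
        refine le_trans ?_ ht₁
        have : ((i : ℝ) + 1) ≤ i₁ := by exact_mod_cast hi1
        exact mul_le_mul_of_nonneg_right this hT.le
      have h9 : F.toFun (t₁ - i * T) (z i)
          = F.toFun (t₁ - (i + 1) * T) (F.toFun T (z i)) := by
        rw [← F.map_add T _ hT.le (by linarith)]
        congr 1
        ring
      rw [h9]
      push_cast
      rcases hcond i hi0 hi1 with h0 | h0
      · rw [h0, F.map_zero, F.map_zero]
        exact (hjump.trans_le (min_le_right _ _)).le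
      · rw [dist_comm]
        refine (hU _ h0 _ hmem _ _ (by simpa using hδ₀) ?_).le
        rw [dist_comm]
        exact hjump.trans_le (min_le_left _ _)
    have h2 := dist_le_Ico_sum_of_dist_le
      (f := fun i : ℕ => F.toFun (t₁ - i * T) (z i)) h01 (d := fun _ => η) hstep
    refine lt_of_le_of_lt h2 ?_
    simp only [Finset.sum_const, Nat.card_Ico, nsmul_eq_mul]
    rw [Nat.cast_sub h01, hη]
    rw [mul_div_assoc', div_lt_iff₀ (by positivity)]
    nlinarith
  refine ⟨N * T, hNM, w, ⟨hN1, ?_, ?_, ?_, ?_, ?_⟩⟩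
  · -- piecewise continuity
    refine ⟨N, fun j => if j = 0 then 0 else if j = N then N * T else (j + 1 / 2) * T, ?_, ?_,
      ?_, ?_⟩
    · simp
    · simp [hNpos.ne']
    · intro i hi
      have hi' : (i : ℝ) + 1 ≤ N := by exact_mod_cast hi
      by_cases h0 : i = 0
      · subst h0
        by_cases h1 : 0 + 1 = N
        · simp only [if_true, if_neg (by omega : ¬ (0 + 1 = 0)), if_pos h1]
          exact hNT
        · simp only [if_true, if_neg (by omega : ¬ (0 + 1 = 0)), if_neg h1]
          positivity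
      · have hne : i ≠ N := by omega
        by_cases h1 : i + 1 = N
        · simp only [if_neg h0, if_neg hne, if_neg (by omega : ¬ (i + 1 = 0)), if_pos h1]
          have : (i : ℝ) + 1 = N := by exact_mod_cast h1
          rw [← this]
          nlinarith
        · simp only [if_neg h0, if_neg hne, if_neg (by omega : ¬ (i + 1 = 0)), if_neg h1]
          push_cast
          nlinarith
    · intro i hi
      refine ⟨fun t => F.toFun (t - i * T) (z i), ?_, ?_⟩
      · refine ContinuousOn.comp (F.continuous_orbit (z i)) (by fun_prop) ?_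
        intro t ht
        have h1 : (if i = 0 then 0 else if i = N then N * T else ((i : ℝ) + 1 / 2) * T) ≤ t :=
          ht.1
        by_cases h0 : i = 0
        · subst h0
          simp only [if_true] at h1
          simp only [mem_Ici]
          simpa using h1
        · have hne : i ≠ N := by omega
          simp only [if_neg h0, if_neg hne] at h1
          simp only [mem_Ici]
          nlinarith
      · intro t ht
        have h1 : (if i = 0 then 0 else if i = N then N * T else ((i : ℝ) + 1 / 2) * T) < t :=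
          ht.1
        have h2 : t < (if i + 1 = 0 then 0 else if i + 1 = N then N * T
            else (((i + 1 : ℕ) : ℝ) + 1 / 2) * T) := ht.2
        simp only [if_neg (by omega : ¬ (i + 1 = 0))] at h2
        have hne : i ≠ N := by omega
        have hi' : (i : ℝ) + 1 ≤ N := by exact_mod_cast hi
        have h3 : t < ((i : ℝ) + 1 + 1 / 2) * T := by
          by_cases h4 : i + 1 = N
          · simp only [if_pos h4] at h2
            have : (i : ℝ) + 1 = N := by exact_mod_cast h4
            rw [this]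
            nlinarith
          · simp only [if_neg h4] at h2
            push_cast at h2
            exact h2
        have h5 : t < N * T := by
          by_cases h4 : i + 1 = N
          · simp only [if_pos h4] at h2
            exact h2
          · have h6 : (i : ℝ) + 1 + 1 ≤ N := by
              have : i + 1 + 1 ≤ N := by omega
              exact_mod_cast this
            nlinarith
        have h7 : idx T t = i := by
          unfold idx
          by_cases h0 : i = 0
          · subst h0
            rw [Nat.floor_eq_zero]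
            have : t / T < 3 / 2 := by
              rw [div_lt_iff₀ hT]
              push_cast at h3
              linarith
            linarith
          · simp only [if_neg h0, if_neg hne] at h1
            rw [Nat.floor_eq_iff' h0]
            constructor
            · have : (i : ℝ) + 1 / 2 ≤ t / T := by
                rw [le_div_iff₀ hT]
                exact h1.le
              linarith
            · have : t / T < (i : ℝ) + 1 + 1 / 2 := by
                rw [div_lt_iff₀ hT]
                exact h3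
              linarith
        simp only [hw, if_pos h5, h7]
  · simp only [hw, if_pos hNT, hidx0]
    simp [F.map_zero, hz.start]
  · simp only [hw, lt_irrefl, if_false]
  · intro t ht
    by_cases h1 : t < N * T
    · obtain ⟨h2, h3, h4⟩ := idx_spec hT ht.1
      have h5 := hidx_lt t h1
      have hwt : w t = F.toFun (t - idx T t * T) (z (idx T t)) := by
        simp only [hw, if_pos h1]
      rw [hwt]
      left
      by_cases h0 : idx T t = 0
      · right
        refine ⟨t - idx T t * T, ⟨h2, h3.le⟩, ?_⟩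
        simp only [h0, hz.start]
      · left
        exact ⟨(t - idx T t * T, z (idx T t)), ⟨⟨h4 h0, h3.le⟩, hz.mem _ h5.le⟩, rfl⟩
    · right
      simp only [hw, if_neg h1]
      rfl
  · intro t₀ t₁ h0 h01 h1 h2
    have ht0 : t₀ < N * T := lt_of_lt_of_le h01 h1
    obtain ⟨a1, a2, a3⟩ := idx_spec hT h0
    have hw0 : w t₀ = F.toFun (t₀ - idx T t₀ * T) (z (idx T t₀)) := by
      simp only [hw, if_pos ht0]
    have hcomp : F.toFun (t₁ - t₀) (w t₀) = F.toFun (t₁ - idx T t₀ * T) (z (idx T t₀)) := by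
      rw [hw0, ← F.map_add _ _ a1 (by linarith)]
      congr 1
      ring
    rw [hcomp]
    have hi0N := hidx_lt t₀ ht0
    by_cases h3 : t₁ < N * T
    · have hw1 : w t₁ = F.toFun (t₁ - idx T t₁ * T) (z (idx T t₁)) := by
        simp only [hw, if_pos h3]
      rw [hw1]
      obtain ⟨b1, b2, b3⟩ := idx_spec (t := t₁) hT (by linarith)
      have hmono : idx T t₀ ≤ idx T t₁ := by
        unfold idx
        apply Nat.floor_mono
        have : t₀ / T ≤ t₁ / T := div_le_div_of_nonneg_right h01.le hT.le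
        linarith
      refine key t₁ _ _ hmono (hidx_lt t₁ h3).le (by linarith) ?_ ?_
      · intro i hi0 hi1
        right
        have hne : idx T t₁ ≠ 0 := by omega
        have b4 := b3 hne
        have hi1' : (i : ℝ) + 1 ≤ idx T t₁ := by exact_mod_cast hi1
        have hi0' : (idx T t₀ : ℝ) ≤ i := by exact_mod_cast hi0
        constructor
        · nlinarith
        · nlinarith
      · by_cases hne : idx T t₁ = 0
        · have h00 : idx T t₀ = 0 := by omega
          rw [hne, h00]
          have h5 : 0 < 1 / T + 2 := by positivity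
          have : (0 : ℝ) < J := h5.trans hJ
          simpa using this
        · have b4 := b3 hne
          have h5 : ((idx T t₁ : ℝ) - idx T t₀) * T < 1 + T := by nlinarith
          have h6 : ((idx T t₁ : ℝ) - idx T t₀) < (1 + T) / T := by rwa [lt_div_iff₀ hT]
          have h7 : (1 + T) / T = 1 / T + 1 := by field_simp
          linarith
    · have ht1 : t₁ = N * T := le_antisymm h1 (not_lt.1 h3)
      have hw1 : w t₁ = F.toFun (t₁ - N * T) (z N) := by
        simp only [hw, if_neg h3]
        rw [ht1, sub_self, F.map_zero, hz.finish]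
      rw [hw1]
      refine key t₁ _ _ hi0N.le le_rfl (by linarith) ?_ ?_
      · intro i hi0 hi1
        have hi0' : (idx T t₀ : ℝ) ≤ i := by exact_mod_cast hi0
        rcases Nat.lt_or_ge (i + 1) N with h5 | h5
        · right
          have h6 : (i : ℝ) + 1 + 1 ≤ N := by exact_mod_cast h5
          constructor
          · nlinarith
          · nlinarith
        · left
          have h6 : i + 1 = N := by omega
          have h7 : (i : ℝ) + 1 = N := by exact_mod_cast h6
          rw [ht1, h7]
          ring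
      · have h5 : ((N : ℝ) - idx T t₀) * T < 1 + 2 * T := by nlinarith
        have h6 : ((N : ℝ) - idx T t₀) < (1 + 2 * T) / T := by rwa [lt_div_iff₀ hT]
        have h7 : (1 + 2 * T) / T = 1 / T + 2 := by field_simp
        linarith

theorem main_equiv (F : SemiFlow X) (T : ℝ) (hT : 0 < T) (x y : X) :
    IsLimitChainPointFlow F x y ↔ IsLimitChainPointMap (F.toFun T) x y := by
  rw [flow_iff, map_iff]
  constructor
  · rintro ⟨K, hK, h⟩
    exact ⟨K, hK, flow_to_map F hT hK h⟩
  · rintro ⟨K, hK, h⟩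
    exact map_to_flow F hT hK h

end Pool.Agent.W_MP_f2fc76_an
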